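import Pool.Agent.PE.Defs
import Pool.Agent.Ord2.Par

open MeasureTheory Filter Topology

namespace Pool.Agent.PE

/-! PEA. Polynomial discrepancy and the arc count. -/

private lemma arc_log_bounds (M B : ℕ) (hM : 1 ≤ M) (hB : 1 ≤ B) :
    (2 : ℝ) ^ (M * (Nat.log 2 B / (2 * M))) ≤ (B : ℝ) ^ (1 / 2 : ℝ) ∧
      (B : ℝ) ^ (2 / M : ℝ) ≤ 16 * (2 : ℝ) ^ (4 * (Nat.log 2 B / (2 * M))) := by
  set r := Nat.log 2 B / (2 * M) with hr
  have hB0 : (0 : ℝ) ≤ B := Nat.cast_nonneg _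
  have hMR : (0 : ℝ) < M := by exact_mod_cast (show 0 < M by omega)
  constructor
  · have h1 : 2 * M * r ≤ Nat.log 2 B := Nat.mul_div_le _ _
    have h2 : 2 ^ (2 * M * r) ≤ B :=
      (Nat.pow_le_pow_right (by norm_num) h1).trans (Nat.pow_log_le_self 2 (by omega))
    have h3 : (2 : ℝ) ^ (2 * M * r) ≤ B := by exact_mod_cast h2
    have h4 : ((2 : ℝ) ^ (M * r)) ^ 2 ≤ B := by
      rw [← pow_mul]
      convert h3 using 2
      ring
    rw [← Real.sqrt_eq_rpow]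
    exact Real.le_sqrt_of_sq_le h4
  · have h1 : Nat.log 2 B < (r + 1) * (2 * M) := by
      rw [hr]
      have := Nat.lt_mul_div_succ (Nat.log 2 B) (show 0 < 2 * M by omega)
      rw [mul_comm]; exact this
    have h2 : B < 2 ^ ((r + 1) * (2 * M)) := by
      have h3 : B < 2 ^ (Nat.log 2 B + 1) := Nat.lt_pow_succ_log_self (by norm_num) B
      exact lt_of_lt_of_le h3 (Nat.pow_le_pow_right (by norm_num) h1)
    have h3 : (B : ℝ) ≤ (2 : ℝ) ^ ((r + 1) * (2 * M)) := by exact_mod_cast h2.le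
    calc (B : ℝ) ^ (2 / M : ℝ) ≤ ((2 : ℝ) ^ ((r + 1) * (2 * M))) ^ (2 / M : ℝ) :=
          Real.rpow_le_rpow hB0 h3 (by positivity)
      _ = (2 : ℝ) ^ (4 * (r + 1)) := by
          rw [← Real.rpow_natCast, ← Real.rpow_mul (by norm_num), ← Real.rpow_natCast]
          congr 1
          push_cast
          field_simp
          ring
      _ = 16 * (2 : ℝ) ^ (4 * r) := by
          rw [mul_add, pow_add]; norm_num; ring

theorem disc : ∃ C c1 : ℝ, 0 < C ∧ 0 < c1 ∧ c1 < 1 ∧ ∀ B : ℕ, ∀ u v : ℝ, 0 ≤ u → u ≤ v → v ≤ 1 →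
    (((Finset.range B).filter fun b : ℕ =>
      u ≤ Int.fract ((b : ℝ) * Ord2.al) ∧ Int.fract ((b : ℝ) * Ord2.al) < v).card : ℝ) ≤
      B * (v - u) + C * (B : ℝ) ^ (1 - c1) := by
  obtain ⟨M, hM, Bf, r0, hr0, hP⟩ := Ord2.params
  have hMR : (1 : ℝ) ≤ M := by exact_mod_cast hM
  have hc1 : (1 : ℝ) / (2 * M) ≤ 1 / 2 := by
    rw [div_le_div_iff₀ (by positivity) (by norm_num)]
    linarith
  refine ⟨257 + 2 ^ (2 * M * r0 + 1), 1 / (2 * M), by positivity, by positivity, by linarith, ?_⟩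
  intro B u v hu huv hv
  rcases Nat.eq_zero_or_pos B with rfl | hB
  · have : (0 : ℝ) ≤ (257 + 2 ^ (2 * M * r0 + 1)) * ((0 : ℕ) : ℝ) ^ (1 - 1 / (2 * M) : ℝ) := by
      positivity
    simpa using this
  have hB1 : (1 : ℝ) ≤ B := by exact_mod_cast hB
  have hpow1 : (1 : ℝ) ≤ (B : ℝ) ^ (1 - 1 / (2 * M) : ℝ) :=
    Real.one_le_rpow hB1 (by linarith)
  have hBuv : 0 ≤ (B : ℝ) * (v - u) := mul_nonneg (by linarith) (by linarith)
  obtain ⟨ha, hb⟩ := arc_log_bounds M B hM hB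
  set r := Nat.log 2 B / (2 * M) with hr
  by_cases hrr : r0 ≤ r
  · have h1 := Half.cnt_le (hP r hrr) B 0 u v hu huv hv
    simp only [add_zero] at h1
    obtain ⟨-, -, -, -, -, -, -, -, -, h2⟩ := hP r hrr
    have h3 : (Bf r : ℝ) ≤ (B : ℝ) ^ (1 - 1 / (2 * M) : ℝ) := by
      have h4 : (2 * Bf r : ℝ) ≤ 2 ^ (M * r) := by exact_mod_cast h2
      have h5 : (B : ℝ) ^ (1 / 2 : ℝ) ≤ (B : ℝ) ^ (1 - 1 / (2 * M) : ℝ) :=
        Real.rpow_le_rpow_of_exponent_le hB1 (by linarith)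
      have h6 : (0 : ℝ) ≤ Bf r := Nat.cast_nonneg _
      linarith
    have h7 : (B : ℝ) * (16 / 2 ^ (4 * r)) ≤ 256 * (B : ℝ) ^ (1 - 1 / (2 * M) : ℝ) := by
      have h8 : (B : ℝ) ^ (1 / (2 * M) : ℝ) ≤ 16 * (2 : ℝ) ^ (4 * r) := by
        refine le_trans (Real.rpow_le_rpow_of_exponent_le hB1 ?_) hb
        rw [div_le_div_iff₀ (by positivity) (by positivity)]
        nlinarith
      have h9 : (B : ℝ) = (B : ℝ) ^ (1 - 1 / (2 * M) : ℝ) * (B : ℝ) ^ (1 / (2 * M) : ℝ) := by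
        rw [← Real.rpow_add (by linarith)]
        simp
      have h10 : (0 : ℝ) < 2 ^ (4 * r) := by positivity
      calc (B : ℝ) * (16 / 2 ^ (4 * r))
          = (B : ℝ) ^ (1 - 1 / (2 * M) : ℝ) * (B : ℝ) ^ (1 / (2 * M) : ℝ) * (16 / 2 ^ (4 * r)) := by
            rw [← h9]
        _ ≤ (B : ℝ) ^ (1 - 1 / (2 * M) : ℝ) * (16 * (2 : ℝ) ^ (4 * r)) * (16 / 2 ^ (4 * r)) := by
            gcongr
        _ = 256 * (B : ℝ) ^ (1 - 1 / (2 * M) : ℝ) := by
            field_simp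
            ring
    have h11 : (0 : ℝ) ≤ 2 ^ (2 * M * r0 + 1) * (B : ℝ) ^ (1 - 1 / (2 * M) : ℝ) := by positivity
    have h12 : (B : ℝ) * (v - u + 16 / 2 ^ (4 * r)) =
      B * (v - u) + (B : ℝ) * (16 / 2 ^ (4 * r)) := by ring
    rw [h12] at h1
    linarith [h1, h3, h7, h11]
  · have h1 : (((Finset.range B).filter fun b : ℕ =>
      u ≤ Int.fract ((b : ℝ) * Ord2.al) ∧ Int.fract ((b : ℝ) * Ord2.al) < v).card : ℝ) ≤ B := by
      have := Finset.card_filter_le (Finset.range B) (fun b : ℕ =>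
        u ≤ Int.fract ((b : ℝ) * Ord2.al) ∧ Int.fract ((b : ℝ) * Ord2.al) < v)
      rw [Finset.card_range] at this
      exact_mod_cast this
    have h2 : B ≤ 2 ^ (2 * M * r0 + 1) := by
      have h3 : Nat.log 2 B < 2 * M * r0 := by
        have h4 : r < r0 := not_le.1 hrr
        rw [hr, Nat.div_lt_iff_lt_mul (by omega)] at h4
        rw [mul_comm]; exact h4
      have h5 : B < 2 ^ (Nat.log 2 B + 1) := Nat.lt_pow_succ_log_self (by norm_num) B
      exact h5.le.trans (Nat.pow_le_pow_right (by norm_num) (by omega))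
    have h3 : (B : ℝ) ≤ 2 ^ (2 * M * r0 + 1) := by exact_mod_cast h2
    have h4 : (2 : ℝ) ^ (2 * M * r0 + 1) * 1 ≤
        2 ^ (2 * M * r0 + 1) * (B : ℝ) ^ (1 - 1 / (2 * M) : ℝ) := by gcongr
    nlinarith

private lemma arc_lip {f g : ℝ} (hfg : f ≤ g) (hf : 0 ≤ f) :
    (g - f) ≤ 2 * ((2 : ℝ) ^ g - (2 : ℝ) ^ f) := by
  have h1 : (2 : ℝ) ^ g = (2 : ℝ) ^ f * (2 : ℝ) ^ (g - f) := by
    rw [← Real.rpow_add (by norm_num)]; congr 1; ring
  have h2 : (g - f) * Real.log 2 + 1 ≤ (2 : ℝ) ^ (g - f) := by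
    have := Real.add_one_le_exp (Real.log 2 * (g - f))
    rw [Real.rpow_def_of_pos (by norm_num)]
    linarith
  have h3 : (1 : ℝ) ≤ (2 : ℝ) ^ f := Real.one_le_rpow (by norm_num) hf
  have h4 := Real.log_two_gt_d9
  have h5 : (g - f) / 2 ≤ (g - f) * Real.log 2 := by nlinarith
  have h6 : (g - f) / 2 ≤ (2 : ℝ) ^ (g - f) - 1 := by linarith
  have h7 : 0 ≤ (2 : ℝ) ^ (g - f) - 1 := by linarith [sub_nonneg.2 hfg]
  nlinarith

private lemma arc_lip2 {f g : ℝ} (hf : 0 ≤ f) (hg : 0 ≤ g) :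
    |g - f| ≤ 2 * |(2 : ℝ) ^ g - (2 : ℝ) ^ f| := by
  rcases le_total f g with h | h
  · rw [abs_of_nonneg (by linarith)]
    exact (arc_lip h hf).trans (by gcongr; exact le_abs_self _)
  · rw [abs_sub_comm, abs_of_nonneg (by linarith), abs_sub_comm]
    exact (arc_lip h hg).trans (by gcongr; exact le_abs_self _)

private lemma arc_one {C0 c1 : ℝ} (hC0 : 0 < C0)
    (h : ∀ B : ℕ, ∀ u v : ℝ, 0 ≤ u → u ≤ v → v ≤ 1 →
    (((Finset.range B).filter fun b : ℕ =>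
      u ≤ Int.fract ((b : ℝ) * Ord2.al) ∧ Int.fract ((b : ℝ) * Ord2.al) < v).card : ℝ) ≤
      B * (v - u) + C0 * (B : ℝ) ^ (1 - c1)) (B : ℕ) (s : ℝ) (hs : 1 / 2 ≤ |s|) (y ρ : ℝ)
    (hρ : 0 < ρ) :
    (((Finset.range B).filter fun b : ℕ => |s * Ord2.th b - y| ≤ ρ).card : ℝ) ≤
      B * (24 * ρ) + C0 * (B : ℝ) ^ (1 - c1) := by
  rcases Finset.eq_empty_or_nonempty
    ((Finset.range B).filter fun b : ℕ => |s * Ord2.th b - y| ≤ ρ) with he | ⟨b0, hb0⟩
  · rw [he]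
    simp only [Finset.card_empty, Nat.cast_zero]
    positivity
  · have hb0' := (Finset.mem_filter.1 hb0).2
    set f0 := Int.fract ((b0 : ℝ) * Ord2.al) with hf0
    have hf00 : 0 ≤ f0 := Int.fract_nonneg _
    have hf01 : f0 < 1 := Int.fract_lt_one _
    have h1 := h B (max (f0 - 8 * ρ) 0) (min (f0 + 16 * ρ) 1) (le_max_right _ _)
      (le_trans (max_le (by linarith) hf00 : _ ≤ f0) (le_min (by linarith) hf01.le)) (min_le_right _ _)
    have h2 : (((Finset.range B).filter fun b : ℕ => |s * Ord2.th b - y| ≤ ρ).card : ℝ) ≤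
        (((Finset.range B).filter fun b : ℕ =>
        max (f0 - 8 * ρ) 0 ≤ Int.fract ((b : ℝ) * Ord2.al) ∧
          Int.fract ((b : ℝ) * Ord2.al) < min (f0 + 16 * ρ) 1).card : ℝ) := by
      have : ((Finset.range B).filter fun b : ℕ => |s * Ord2.th b - y| ≤ ρ) ⊆
          ((Finset.range B).filter fun b : ℕ =>
            max (f0 - 8 * ρ) 0 ≤ Int.fract ((b : ℝ) * Ord2.al) ∧
              Int.fract ((b : ℝ) * Ord2.al) < min (f0 + 16 * ρ) 1) := by
        intro b hb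
        obtain ⟨hb1, hb2⟩ := Finset.mem_filter.1 hb
        rw [Finset.mem_filter]
        refine ⟨hb1, ?_⟩
        have hn : 0 ≤ Int.fract ((b : ℝ) * Ord2.al) := Int.fract_nonneg _
        have hl : Int.fract ((b : ℝ) * Ord2.al) < 1 := Int.fract_lt_one _
        have h3 : |s * (Ord2.th b - Ord2.th b0)| ≤ 2 * ρ := by
          have h4 : s * (Ord2.th b - Ord2.th b0) =
            (s * Ord2.th b - y) - (s * Ord2.th b0 - y) := by ring
          rw [h4]
          exact (abs_sub _ _).trans (by linarith)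
        rw [abs_mul] at h3
        have h5 : |Ord2.th b - Ord2.th b0| ≤ 4 * ρ := by
          nlinarith [abs_nonneg (Ord2.th b - Ord2.th b0)]
        have h6 := arc_lip2 hf00 hn
        have h7 : |Int.fract ((b : ℝ) * Ord2.al) - f0| ≤ 8 * ρ := by
          refine h6.trans ?_
          have h8 : |(2 : ℝ) ^ Int.fract ((b : ℝ) * Ord2.al) - (2 : ℝ) ^ f0| ≤ 4 * ρ := h5
          linarith
        obtain ⟨h9, h10⟩ := abs_le.1 h7
        exact ⟨max_le (by linarith) hn, lt_min (by linarith) hl⟩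
      exact_mod_cast Finset.card_le_card this
    have h3 : min (f0 + 16 * ρ) 1 - max (f0 - 8 * ρ) 0 ≤ 24 * ρ := by
      have := min_le_left (f0 + 16 * ρ) 1
      have := le_max_left (f0 - 8 * ρ) 0
      linarith
    have h4 : (B : ℝ) * (min (f0 + 16 * ρ) 1 - max (f0 - 8 * ρ) 0) ≤ B * (24 * ρ) := by
      gcongr
    linarith

theorem arc_count : ∃ C c1 : ℝ, 0 < C ∧ 0 < c1 ∧ c1 < 1 ∧ ∀ B : ℕ, ∀ s : ℝ, 1 / 2 ≤ |s| → |s| ≤ 1 →
    ∀ w : T, ∀ ρ : ℝ, 0 < ρ →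
      (((Finset.range B).filter fun b : ℕ => ‖((s * Ord2.th b : ℝ) : T) - w‖ ≤ ρ).card : ℝ) ≤
        C * (ρ * B + (B : ℝ) ^ (1 - c1)) := by
  obtain ⟨C0, c1, hC0, hc1, hc1', h⟩ := disc
  refine ⟨168 + 7 * C0, c1, by positivity, hc1, hc1', ?_⟩
  intro B s hs hs1 w ρ hρ
  have hB0 : (0 : ℝ) ≤ B := Nat.cast_nonneg _
  have hpow : (0 : ℝ) ≤ (B : ℝ) ^ (1 - c1) := by positivity
  by_cases hρ2 : 1 / 2 < ρ
  · have h1 : (((Finset.range B).filter fun b : ℕ =>
        ‖((s * Ord2.th b : ℝ) : T) - w‖ ≤ ρ).card : ℝ) ≤ B := by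
      have := Finset.card_filter_le (Finset.range B) (fun b : ℕ =>
        ‖((s * Ord2.th b : ℝ) : T) - w‖ ≤ ρ)
      rw [Finset.card_range] at this
      exact_mod_cast this
    have h2 : (B : ℝ) ≤ 2 * (ρ * B) := by nlinarith
    nlinarith [mul_nonneg hρ.le hB0, mul_nonneg hC0.le (mul_nonneg hρ.le hB0),
      mul_nonneg hC0.le hpow]
  · have hρ3 : ρ ≤ 1 / 2 := not_lt.1 hρ2
    obtain ⟨w0, rfl⟩ := QuotientAddGroup.mk_surjective w
    set w1 := Int.fract w0 with hw1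
    have hw1a : 0 ≤ w1 := Int.fract_nonneg _
    have hw1b : w1 < 1 := Int.fract_lt_one _
    have hsub : ((Finset.range B).filter fun b : ℕ =>
        ‖((s * Ord2.th b : ℝ) : T) - (QuotientAddGroup.mk w0 : T)‖ ≤ ρ) ⊆
        (Finset.Icc (-3 : ℤ) 3).biUnion fun k =>
          ((Finset.range B).filter fun b : ℕ => |s * Ord2.th b - (w1 + k)| ≤ ρ) := by
      intro b hb
      obtain ⟨hb1, hb2⟩ := Finset.mem_filter.1 hb
      have h3 : ((s * Ord2.th b : ℝ) : T) - (QuotientAddGroup.mk w0 : T) =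
          ((s * Ord2.th b - w0 : ℝ) : T) := rfl
      rw [h3, AddCircle.norm_eq] at hb2
      simp only [inv_one, one_mul, mul_one] at hb2
      set j := round (s * Ord2.th b - w0) with hj
      have hw : w0 = w1 + ⌊w0⌋ := by rw [hw1]; exact (Int.fract_add_floor w0).symm
      have h4 : |s * Ord2.th b - (w1 + ((⌊w0⌋ + j : ℤ) : ℝ))| ≤ ρ := by
        have e : s * Ord2.th b - (w1 + ((⌊w0⌋ + j : ℤ) : ℝ)) = s * Ord2.th b - w0 - j := by
          push_cast
          rw [hw1, ← Int.self_sub_floor]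
          ring
        rw [e]; exact hb2
      have hth1 : 0 ≤ Ord2.th b := by unfold Ord2.th; positivity
      have hth2 : Ord2.th b ≤ 2 := by
        unfold Ord2.th
        calc (2 : ℝ) ^ (Int.fract ((b : ℝ) * Ord2.al)) ≤ (2 : ℝ) ^ (1 : ℝ) :=
              Real.rpow_le_rpow_of_exponent_le (by norm_num) (Int.fract_lt_one _).le
          _ = 2 := by norm_num
      have h5 : |s * Ord2.th b| ≤ 2 := by
        rw [abs_mul, abs_of_nonneg hth1]
        nlinarith [abs_nonneg s]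
      obtain ⟨h6, h7⟩ := abs_le.1 h4
      obtain ⟨h8, h9⟩ := abs_le.1 h5
      rw [Finset.mem_biUnion]
      refine ⟨⌊w0⌋ + j, ?_, ?_⟩
      · rw [Finset.mem_Icc]
        constructor
        · have : (-4 : ℝ) < ((⌊w0⌋ + j : ℤ) : ℝ) := by linarith
          have : (-4 : ℤ) < ⌊w0⌋ + j := by exact_mod_cast this
          omega
        · have : ((⌊w0⌋ + j : ℤ) : ℝ) < 4 := by linarith
          have : ⌊w0⌋ + j < 4 := by exact_mod_cast this
          omega
      · rw [Finset.mem_filter]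
        exact ⟨hb1, h4⟩
    have h1 : (((Finset.range B).filter fun b : ℕ =>
        ‖((s * Ord2.th b : ℝ) : T) - (QuotientAddGroup.mk w0 : T)‖ ≤ ρ).card : ℝ) ≤
        ∑ k ∈ Finset.Icc (-3 : ℤ) 3,
          (((Finset.range B).filter fun b : ℕ => |s * Ord2.th b - (w1 + k)| ≤ ρ).card : ℝ) := by
      have := (Finset.card_le_card hsub).trans Finset.card_biUnion_le
      exact_mod_cast this
    have h2 : ∑ k ∈ Finset.Icc (-3 : ℤ) 3,
          (((Finset.range B).filter fun b : ℕ => |s * Ord2.th b - (w1 + k)| ≤ ρ).card : ℝ) ≤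
        ∑ _k ∈ Finset.Icc (-3 : ℤ) 3, (B * (24 * ρ) + C0 * (B : ℝ) ^ (1 - c1)) :=
      Finset.sum_le_sum fun k _ => arc_one hC0 h B s hs (w1 + (k : ℝ)) ρ hρ
    refine (h1.trans h2).trans ?_
    have hcard : (Finset.Icc (-3 : ℤ) 3).card = 7 := by decide
    rw [Finset.sum_const, hcard, nsmul_eq_mul]
    push_cast
    nlinarith [mul_nonneg hρ.le hB0, mul_nonneg hC0.le (mul_nonneg hρ.le hB0),
      mul_nonneg hC0.le hpow]

end Pool.Agent.PE
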