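import Pool.Agent.PE.Two
import Pool.Agent.LogSc.Cell

open MeasureTheory Filter Topology

namespace Pool.Agent.PE

/-! PEC. All but countably many points. HINT: for fixed `n0 ≥ n1` the set `{x | ∀ n ≥ n0, Poor c β n x}` has all its distances
`≥ 2 ^ (-n0)` (for `0 < ‖x - y‖ < 2 ^ (-n0)` there is `n ≥ n0` with `2 ^ (-n-1) ≤ ‖x - y‖ ≤ 2 ^ (-n)`), so it is finite (compactness); the set is the
union over `n0`. -/

theorem poor_countable : ∃ c : ℝ, 0 < c ∧ ∀ β : ℝ, β < 1 / 2 →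
    {x : T | ∀ᶠ n : ℕ in atTop, Poor c β n x}.Countable := by
  obtain ⟨c, hc, h⟩ := two_point
  refine ⟨c, hc, fun β hβ => ?_⟩
  obtain ⟨n1, hn1⟩ := h β hβ
  have hsub : {x : T | ∀ᶠ n : ℕ in atTop, Poor c β n x} ⊆
      ⋃ n0 : ℕ, {x : T | n1 ≤ n0 ∧ ∀ n ≥ n0, Poor c β n x} := by
    intro x hx
    obtain ⟨n0, hn0⟩ := eventually_atTop.1 hx
    exact Set.mem_iUnion.2 ⟨max n0 n1, le_max_right _ _, fun n hn =>
      hn0 n ((le_max_left _ _).trans hn)⟩
  refine Set.Countable.mono hsub (Set.countable_iUnion fun n0 => ?_)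
  have hsep : ∀ x ∈ {x : T | n1 ≤ n0 ∧ ∀ n ≥ n0, Poor c β n x},
      ∀ y ∈ {x : T | n1 ≤ n0 ∧ ∀ n ≥ n0, Poor c β n x}, x ≠ y → (1 / 2 : ℝ) ^ n0 ≤ dist x y := by
    intro x hx y hy hne
    by_contra hcon
    push Not at hcon
    have hpos : 0 < dist x y := dist_pos.2 hne
    have hle1 : dist x y ≤ 1 :=
      hcon.le.trans (pow_le_one₀ (by norm_num) (by norm_num))
    obtain ⟨n, hn, hn'⟩ := exists_nat_pow_near_of_lt_one hpos hle1
      (show (0 : ℝ) < 1 / 2 by norm_num) (by norm_num)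
    have hnn : n0 ≤ n := by
      by_contra hlt
      push Not at hlt
      have h1 : (1 / 2 : ℝ) ^ n0 ≤ (1 / 2) ^ (n + 1) :=
        pow_le_pow_of_le_one (by norm_num) (by norm_num) hlt
      linarith
    rw [dist_eq_norm] at hn hn'
    exact hn1 n (hx.1.trans hnn) x y hn.le hn' (hx.2 n hnn) (hy.2 n hnn)
  have hdisj : ({x : T | n1 ≤ n0 ∧ ∀ n ≥ n0, Poor c β n x}).PairwiseDisjoint
      fun x => Metric.ball x ((1 / 2 : ℝ) ^ n0 / 2) := by
    intro x hx y hy hne
    refine Metric.ball_disjoint_ball ?_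
    have := hsep x hx y hy hne
    linarith
  exact hdisj.countable_of_isOpen (fun x _ => Metric.isOpen_ball)
    (fun x _ => ⟨x, Metric.mem_ball_self (by positivity)⟩)

private theorem CNT_mp {σ : Measure T} (h2 : MeasurePreserving (fun x : T => 2 • x) σ σ)
    (h3 : MeasurePreserving (fun x : T => 3 • x) σ σ) (a b : ℕ) :
    MeasurePreserving (fun x : T => (2 ^ a * 3 ^ b) • x) σ σ := by
  have h := (h2.iterate a).comp (h3.iterate b)
  have e : ((fun x : T => 2 • x)^[a] ∘ (fun x : T => 3 • x)^[b]) =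
      fun x : T => (2 ^ a * 3 ^ b) • x := by
    rw [smul_iterate, smul_iterate]
    funext x
    simp only [Function.comp_apply]
    rw [mul_smul]
  rwa [e] at h

/-- Measurability of a set containing the points which are not poor for the heavy cells. -/
theorem rich_measure {μ : Measure T} [IsProbabilityMeasure μ]
    (h2 : MeasurePreserving (fun x : T => 2 • x) μ μ)
    (h3 : MeasurePreserving (fun x : T => 3 • x) μ μ) {c β : ℝ} (hc : 0 < c) {n L : ℕ} (hn : 4 ≤ n)
    (hL1 : (2 : ℝ) ^ L ≤ (n : ℝ) ^ c) (hL2 : (n : ℝ) ^ c ≤ (2 : ℝ) ^ (L + 1))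
    (hβ : 0 ≤ β) :
    μ {x : T | ¬ Poor c β n x} ≤
      8 * μ {x : T | (μ {y : T | cell 2 L y = cell 2 L x}).toReal ≤ (2 : ℝ) ^ (-(β * L))} := by
  classical
  have hnpos : (0 : ℝ) < n := by
    have : 0 < n := by omega
    exact_mod_cast this
  have hcm : ∀ w : ℕ, MeasurableSet {y : T | cell 2 L y = w} := fun w =>
    Pool.Agent.LogSc.measurable_cell 2 L (MeasurableSet.singleton w)
  -- the heavy cells
  set W : Finset ℕ := (Finset.range (2 ^ L)).filter fun w =>
    (2 : ℝ) ^ (-(β * L)) < (μ {y : T | cell 2 L y = w}).toReal with hW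
  set E : Set T := {x : T | (μ {y : T | cell 2 L y = cell 2 L x}).toReal ≤ (2 : ℝ) ^ (-(β * L))} with hE
  have hEW : ∀ x : T, x ∈ E ↔ cell 2 L x ∉ W := by
    intro x
    rw [hW, Finset.mem_filter, Finset.mem_range]
    have h1 := Pool.Agent.LogSc.cell_lt (b := 2) (by norm_num) L x
    constructor
    · intro h h4
      exact absurd h4.2 (not_lt.2 h)
    · intro h
      by_contra h4
      exact h ⟨h1, not_le.1 h4⟩
  have hEm : MeasurableSet E := by
    have e : E = (cell 2 L) ⁻¹' {w : ℕ | w ∉ W} := by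
      ext x
      exact hEW x
    rw [e]
    exact Pool.Agent.LogSc.measurable_cell 2 L (MeasurableSet.of_discrete)
  -- the number of heavy cells
  have hWcard : (W.card : ℝ) ≤ (n : ℝ) ^ (c * β) := by
    have h4 : (W.card : ℝ) * (2 : ℝ) ^ (-(β * L)) ≤ 1 := by
      have h5 : (W.card : ℝ) * (2 : ℝ) ^ (-(β * L)) ≤ ∑ w ∈ W, (μ {y : T | cell 2 L y = w}).toReal := by
        rw [← nsmul_eq_mul, ← Finset.sum_const]
        exact Finset.sum_le_sum fun w hw => (Finset.mem_filter.1 hw).2.le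
      refine h5.trans ?_
      rw [← ENNReal.toReal_sum (fun w _ => measure_ne_top _ _)]
      have h6 : ∑ w ∈ W, μ {y : T | cell 2 L y = w} = μ (⋃ w ∈ W, {y : T | cell 2 L y = w}) := by
        rw [measure_biUnion_finset]
        · intro a _ b _ hab
          refine Set.disjoint_left.2 fun y hy hy' => hab ?_
          exact (Eq.symm hy).trans hy'
        · exact fun w _ => hcm w
      rw [h6]
      calc (μ (⋃ w ∈ W, {y : T | cell 2 L y = w})).toReal ≤ (1 : ENNReal).toReal :=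
            ENNReal.toReal_mono ENNReal.one_ne_top prob_le_one
        _ = 1 := by simp
    have h7 : (W.card : ℝ) ≤ (2 : ℝ) ^ (β * L) := by
      have h8 : (2 : ℝ) ^ (β * L) * (2 : ℝ) ^ (-(β * L)) = 1 := by
        rw [← Real.rpow_add (by norm_num)]
        simp
      have h9 : (0 : ℝ) < (2 : ℝ) ^ (-(β * L)) := by positivity
      exact le_of_mul_le_mul_right (h4.trans (le_of_eq h8.symm)) h9
    refine h7.trans ?_
    have h10 : (2 : ℝ) ^ (β * L) = ((2 : ℝ) ^ L) ^ β := by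
      rw [mul_comm, Real.rpow_mul (by norm_num), Real.rpow_natCast]
    rw [h10, Real.rpow_mul hnpos.le]
    exact Real.rpow_le_rpow (by positivity) hL1 hβ
  -- the centres of the heavy cells
  set Z : Finset T := W.image fun w : ℕ => ((((w : ℝ) + 1 / 2) / 2 ^ L : ℝ) : T) with hZ
  have hZcard : (Z.card : ℝ) ≤ (n : ℝ) ^ (c * β) :=
    le_trans (by exact_mod_cast Finset.card_image_le) hWcard
  have hnear : ∀ y : T, cell 2 L y ∈ W → ∃ z ∈ Z, ‖y - z‖ ≤ (n : ℝ) ^ (-c) := by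
    intro y hy
    refine ⟨_, Finset.mem_image_of_mem _ hy, ?_⟩
    have h4 : ((Pool.Agent.LogSc.rep y : ℝ) : T) = y := Pool.Agent.LogSc.coe_rep y
    have h5 : y - (((((cell 2 L y : ℕ) : ℝ) + 1 / 2) / 2 ^ L : ℝ) : T) =
        ((Pool.Agent.LogSc.rep y - (((cell 2 L y : ℕ) : ℝ) + 1 / 2) / 2 ^ L : ℝ) : T) := by
      have h6 : ((Pool.Agent.LogSc.rep y - (((cell 2 L y : ℕ) : ℝ) + 1 / 2) / 2 ^ L : ℝ) : T) =
          ((Pool.Agent.LogSc.rep y : ℝ) : T) - (((((cell 2 L y : ℕ) : ℝ) + 1 / 2) / 2 ^ L : ℝ) : T) := rfl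
      rw [h6, h4]
    rw [h5]
    have h6 : ‖((Pool.Agent.LogSc.rep y - (((cell 2 L y : ℕ) : ℝ) + 1 / 2) / 2 ^ L : ℝ) : T)‖ ≤
        |Pool.Agent.LogSc.rep y - (((cell 2 L y : ℕ) : ℝ) + 1 / 2) / 2 ^ L| := by
      have h10 := UnitAddCircle.norm_eq
        (x := (Pool.Agent.LogSc.rep y - (((cell 2 L y : ℕ) : ℝ) + 1 / 2) / 2 ^ L))
      have h11 := round_le (Pool.Agent.LogSc.rep y - (((cell 2 L y : ℕ) : ℝ) + 1 / 2) / 2 ^ L) 0
      rw [Int.cast_zero, sub_zero] at h11
      exact (le_of_eq h10).trans h11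
    refine h6.trans ?_
    have hr0 := Pool.Agent.LogSc.rep_nonneg y
    have hp : (0 : ℝ) < 2 ^ L := by positivity
    have h7 : (((cell 2 L y : ℕ) : ℝ)) ≤ 2 ^ L * Pool.Agent.LogSc.rep y := by
      have := Nat.floor_le (show (0 : ℝ) ≤ ((2 : ℕ) : ℝ) ^ L * Pool.Agent.LogSc.rep y by positivity)
      simpa [Pool.Agent.LogSc.cell] using this
    have h8 : 2 ^ L * Pool.Agent.LogSc.rep y < ((cell 2 L y : ℕ) : ℝ) + 1 := by
      have := Nat.lt_floor_add_one (((2 : ℕ) : ℝ) ^ L * Pool.Agent.LogSc.rep y)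
      simpa [Pool.Agent.LogSc.cell] using this
    have h9 : |Pool.Agent.LogSc.rep y - (((cell 2 L y : ℕ) : ℝ) + 1 / 2) / 2 ^ L| ≤ 1 / 2 / 2 ^ L := by
      rw [abs_le]
      constructor
      · rw [neg_le_sub_iff_le_add, add_div]
        have h12 : (((cell 2 L y : ℕ) : ℝ)) / 2 ^ L ≤ Pool.Agent.LogSc.rep y := by
          rw [div_le_iff₀ hp]
          linarith
        linarith
      · rw [sub_le_iff_le_add, ← add_div, le_div_iff₀ hp]
        linarith
    refine h9.trans ?_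
    rw [Real.rpow_neg hnpos.le, ← one_div, div_div, ← pow_succ']
    exact one_div_le_one_div_of_le (by positivity) hL2
  -- not poor
  set N := n / 4 with hN
  have hN1 : 0 < N := by omega
  set F : T → ENNReal := fun x => ∑ b ∈ Finset.range N,
    ({x : T | (2 ^ (n - Ord2.fl b) * 3 ^ b) • x ∈ E}.indicator (fun _ => (1 : ENNReal)) x) with hF
  have hmp : ∀ b : ℕ, MeasurePreserving (fun x : T => (2 ^ (n - Ord2.fl b) * 3 ^ b) • x) μ μ :=
    fun b => CNT_mp h2 h3 _ _
  have hms : ∀ b : ℕ, MeasurableSet {x : T | (2 ^ (n - Ord2.fl b) * 3 ^ b) • x ∈ E} := fun b =>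
    (hmp b).measurable hEm
  have hint : ∫⁻ x, F x ∂μ = N * μ E := by
    rw [hF, lintegral_finsetSum _ (fun b _ => measurable_const.indicator (hms b))]
    have h4 : ∀ b ∈ Finset.range N, ∫⁻ x, ({x : T | (2 ^ (n - Ord2.fl b) * 3 ^ b) • x ∈ E}.indicator
        (fun _ => (1 : ENNReal)) x) ∂μ = μ E := by
      intro b _
      rw [lintegral_indicator_const (hms b), one_mul]
      exact (hmp b).measure_preimage hEm.nullMeasurableSet
    rw [Finset.sum_congr rfl h4]
    simp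
  have hFcard : ∀ x, F x = (((Finset.range N).filter
      (fun b => (2 ^ (n - Ord2.fl b) * 3 ^ b) • x ∈ E)).card : ENNReal) := by
    intro x
    rw [hF]
    simp only [Set.indicator_apply, Set.mem_ofPred_eq]
    rw [Finset.sum_boole]
  have hsub : {x : T | ¬ Poor c β n x} ⊆ {x : T | (N : ENNReal) ≤ 8 * F x} := by
    intro x hx
    show (N : ENNReal) ≤ 8 * F x
    by_contra hlt
    push Not at hlt
    apply hx
    refine ⟨Z, hZcard, ?_⟩
    have h4 : ((Finset.range (n / 4)).filter (fun b => ∀ z ∈ Z,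
        (n : ℝ) ^ (-c) < ‖(2 ^ (n - Ord2.fl b) * 3 ^ b) • x - z‖)).card ≤
        ((Finset.range N).filter (fun b => (2 ^ (n - Ord2.fl b) * 3 ^ b) • x ∈ E)).card := by
      refine Finset.card_le_card fun b hb => ?_
      rw [Finset.mem_filter] at hb ⊢
      refine ⟨hb.1, (hEW _).2 fun hcell => ?_⟩
      obtain ⟨z, hz, hz'⟩ := hnear _ hcell
      exact absurd (hb.2 z hz) (not_lt.2 hz')
    rw [hFcard] at hlt
    have h5 : 8 * ((Finset.range N).filter
        (fun b => (2 ^ (n - Ord2.fl b) * 3 ^ b) • x ∈ E)).card < N := by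
      exact_mod_cast hlt
    exact (Nat.mul_le_mul_left 8 h4).trans h5.le
  have hFm : Measurable F :=
    Finset.measurable_sum _ (fun b _ => measurable_const.indicator (hms b))
  have hmark := mul_meas_ge_le_lintegral (μ := μ) (hFm.const_mul (8 : ENNReal)) (N : ENNReal)
  have hN0 : (N : ENNReal) ≠ 0 := by exact_mod_cast hN1.ne'
  have hNt : (N : ENNReal) ≠ ⊤ := ENNReal.natCast_ne_top N
  have h6 : (N : ENNReal) * μ {x : T | (N : ENNReal) ≤ 8 * F x} ≤ N * (8 * μ E) := by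
    refine hmark.trans (le_of_eq ?_)
    rw [lintegral_const_mul _ hFm, hint]
    ring
  have h7 := (ENNReal.mul_le_mul_iff_right hN0 hNt).1 h6
  exact (measure_mono hsub).trans h7

end Pool.Agent.PE
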