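import Pool.Agent.Half.CntB
import Pool.Agent.LogSc.Defs

/-!
# Slices of orbits at polynomial scale: definitions
-/

open MeasureTheory Filter Topology

namespace Pool.Agent.PE

export Pool.Agent.LogSc (T rep cell)

/-- The window of `x` at level `n` (the points `2 ^ (n - ⌊b log 3 / log 2⌋) 3 ^ b x`, `b < n / 4`) is poor: at least
seven eighths of its points are within `n ^ (-c)` of a set of at most `n ^ (c β)` points. -/
def Poor (c β : ℝ) (n : ℕ) (x : T) : Prop :=
  ∃ Z : Finset T, (Z.card : ℝ) ≤ (n : ℝ) ^ (c * β) ∧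
    8 * ((Finset.range (n / 4)).filter (fun b => ∀ z ∈ Z,
      (n : ℝ) ^ (-c) < ‖(2 ^ (n - Ord2.fl b) * 3 ^ b) • x - z‖)).card ≤ n / 4

end Pool.Agent.PE
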