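import Pool.Agent.Half.KorD
import Pool.Agent.LLN.RateF

/-!
# Measures invariant under one of the two maps

If `μ` is atomless and invariant under `x ↦ q x` only, and the averages of the characters along the orbits
of `x ↦ p x` converge completely along a slowly growing sequence to the Fourier coefficients of a measure
`ρ`, then `ρ` is at least half of Lebesgue measure.
-/

open MeasureTheory Filter Topology Set
open scoped ENNReal NNReal

namespace Pool.Agent.PE.OneMap

open Pool.Agent.LLN (Dev CC)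

abbrev T := AddCircle (1 : ℝ)

private theorem rf_int (κ : Measure T) [IsFiniteMeasure κ] (f : C(T, ℂ)) : Integrable f κ :=
  f.continuous.integrable_of_hasCompactSupport (HasCompactSupport.of_compactSpace _)

private theorem rf_bd (κ : Measure T) [IsFiniteMeasure κ] (f : C(T, ℂ)) :
    ‖∫ x, f x ∂κ‖ ≤ ‖f‖ * κ.real univ :=
  norm_integral_le_of_norm_le_const (C := ‖f‖) (Eventually.of_forall fun x => f.norm_coe_le_norm x)

/-- The average. -/
private noncomputable def av (p : ℕ) (N : ℕ) (f : C(T, ℂ)) (x : T) : ℂ :=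
  (N : ℂ)⁻¹ * ∑ i ∈ Finset.range N, f (p ^ i • x)

private theorem av_add (p N : ℕ) (f g : C(T, ℂ)) (x : T) :
    av p N (f + g) x = av p N f x + av p N g x := by
  simp only [av, ContinuousMap.add_apply, Finset.sum_add_distrib, mul_add]

private theorem av_smul (p N : ℕ) (c : ℂ) (f : C(T, ℂ)) (x : T) :
    av p N (c • f) x = c * av p N f x := by
  simp only [av, ContinuousMap.smul_apply, smul_eq_mul]
  rw [← Finset.mul_sum]
  ring

private theorem av_norm (p N : ℕ) (f : C(T, ℂ)) (x : T) : ‖av p N f x‖ ≤ ‖f‖ := by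
  unfold av
  rcases Nat.eq_zero_or_pos N with h | h
  · subst h
    simp
  · rw [norm_mul, norm_inv, Complex.norm_natCast]
    have h1 : ‖∑ i ∈ Finset.range N, f (p ^ i • x)‖ ≤ N * ‖f‖ := by
      refine (norm_sum_le _ _).trans ?_
      refine (Finset.sum_le_sum (fun i _ => f.norm_coe_le_norm _)).trans ?_
      simp
    have hN : (0 : ℝ) < N := by exact_mod_cast h
    calc (N : ℝ)⁻¹ * ‖∑ i ∈ Finset.range N, f (p ^ i • x)‖ ≤ (N : ℝ)⁻¹ * (N * ‖f‖) :=
          mul_le_mul_of_nonneg_left h1 (by positivity)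
      _ = ‖f‖ := by field_simp

/-- Deviation sets of elements of the span are covered by the deviation sets of characters. -/
private theorem rf_span {μ : Measure T} [IsProbabilityMeasure μ] (p : ℕ) {g : C(T, ℂ)}
    (hg : g ∈ Submodule.span ℂ (range (@fourier 1))) : ∀ η : ℝ, 0 < η →
      ∃ (s : Finset ℤ) (δ : ℝ), 0 < δ ∧ ∀ (N : ℕ) (x : T), (∀ m ∈ s, x ∉ Dev μ p m δ N) →
        ‖av p N g x - ∫ y, g y ∂μ‖ < η := by
  induction hg using Submodule.span_induction with
  | mem g hg =>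
    obtain ⟨n, rfl⟩ := hg
    intro η hη
    refine ⟨{n}, η, hη, fun N x hx => ?_⟩
    have h1 := hx n (by simp)
    simp only [Dev, mem_ofPred_eq, not_le] at h1
    exact h1
  | zero =>
    intro η hη
    refine ⟨∅, 1, one_pos, fun N x _ => ?_⟩
    simp [av, hη]
  | add f g _ _ hf hg =>
    intro η hη
    obtain ⟨s, δ, hδ, hs⟩ := hf (η / 2) (by positivity)
    obtain ⟨t, ε, hε, ht⟩ := hg (η / 2) (by positivity)
    refine ⟨s ∪ t, min δ ε, lt_min hδ hε, fun N x hx => ?_⟩
    have h1 := hs N x (fun m hm hm' => hx m (Finset.mem_union_left _ hm) (by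
      simp only [Dev, mem_ofPred_eq] at hm' ⊢
      exact (min_le_left _ _).trans hm'))
    have h2 := ht N x (fun m hm hm' => hx m (Finset.mem_union_right _ hm) (by
      simp only [Dev, mem_ofPred_eq] at hm' ⊢
      exact (min_le_right _ _).trans hm'))
    rw [av_add]
    simp only [ContinuousMap.add_apply]
    rw [integral_add (rf_int μ f) (rf_int μ g)]
    calc ‖av p N f x + av p N g x - (∫ y, f y ∂μ + ∫ y, g y ∂μ)‖
        = ‖(av p N f x - ∫ y, f y ∂μ) + (av p N g x - ∫ y, g y ∂μ)‖ := by congr 1; ring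
      _ ≤ ‖av p N f x - ∫ y, f y ∂μ‖ + ‖av p N g x - ∫ y, g y ∂μ‖ := norm_add_le _ _
      _ < η := by linarith
  | smul c f _ hf =>
    intro η hη
    obtain ⟨s, δ, hδ, hs⟩ := hf (η / (‖c‖ + 1)) (by positivity)
    refine ⟨s, δ, hδ, fun N x hx => ?_⟩
    have h1 := hs N x hx
    rw [av_smul]
    simp only [ContinuousMap.smul_apply, smul_eq_mul]
    rw [integral_const_mul, ← mul_sub, norm_mul]
    calc ‖c‖ * ‖av p N f x - ∫ y, f y ∂μ‖ ≤ ‖c‖ * (η / (‖c‖ + 1)) :=
          mul_le_mul_of_nonneg_left h1.le (norm_nonneg _)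
      _ < (‖c‖ + 1) * (η / (‖c‖ + 1)) := by
          apply mul_lt_mul_of_pos_right (by linarith) (by positivity)
      _ = η := by field_simp

private theorem rf_cont {μ : Measure T} [IsProbabilityMeasure μ] (p : ℕ) (f : C(T, ℂ)) {η : ℝ}
    (hη : 0 < η) : ∃ (s : Finset ℤ) (δ : ℝ), 0 < δ ∧ ∀ (N : ℕ) (x : T),
      (∀ m ∈ s, x ∉ Dev μ p m δ N) → ‖av p N f x - ∫ y, f y ∂μ‖ < η := by
  have hf : f ∈ (Submodule.span ℂ (range (@fourier 1))).topologicalClosure := by
    have : Fact ((0 : ℝ) < 1) := ⟨one_pos⟩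
    rw [span_fourier_closure_eq_top]; trivial
  rw [← SetLike.mem_coe, Submodule.topologicalClosure_coe, Metric.mem_closure_iff] at hf
  obtain ⟨g, hg, hfg⟩ := hf (η / 4) (by positivity)
  rw [dist_eq_norm] at hfg
  obtain ⟨s, δ, hδ, hs⟩ := rf_span (μ := μ) p hg (η / 4) (by positivity)
  refine ⟨s, δ, hδ, fun N x hx => ?_⟩
  have h1 := hs N x hx
  have h2 : av p N f x = av p N g x + av p N (f - g) x := by
    rw [← av_add]
    congr 1
    abel
  have h3 : ∫ y, f y ∂μ = ∫ y, g y ∂μ + ∫ y, (f - g) y ∂μ := by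
    rw [← integral_add (rf_int μ g) (rf_int μ _)]
    congr 1
    funext y
    simp
  have h4 := av_norm p N (f - g) x
  have h5 := rf_bd μ (f - g)
  rw [probReal_univ, mul_one] at h5
  calc ‖av p N f x - ∫ y, f y ∂μ‖
      = ‖(av p N g x - ∫ y, g y ∂μ) + (av p N (f - g) x - ∫ y, (f - g) y ∂μ)‖ := by
        rw [h2, h3]; congr 1; ring
    _ ≤ ‖av p N g x - ∫ y, g y ∂μ‖ + (‖av p N (f - g) x‖ + ‖∫ y, (f - g) y ∂μ‖) :=
        (norm_add_le _ _).trans (add_le_add le_rfl (norm_sub_le _ _))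
    _ < η := by linarith



/-- Complete convergence for real continuous functions. -/
theorem dev_cont {μ ρ : Measure T} [IsProbabilityMeasure μ] [IsProbabilityMeasure ρ] {p : ℕ} {N : ℕ → ℕ}
    (h : ∀ m : ℤ, ∀ η : ℝ, 0 < η → Summable fun j : ℕ => (μ (Dev ρ p m η (N j))).toReal)
    (f : C(T, ℝ)) {η : ℝ} (hη : 0 < η) :
    Summable fun j : ℕ => (μ {x | η ≤
      |((N j : ℕ) : ℝ)⁻¹ * ∑ i ∈ Finset.range (N j), f (p ^ i • x) - ∫ y, f y ∂ρ|}).toReal := by
  set F : C(T, ℂ) := ⟨fun x => ((f x : ℝ) : ℂ), Complex.continuous_ofReal.comp f.continuous⟩ with hF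
  obtain ⟨s, δ, hδ, hs⟩ := rf_cont (μ := ρ) p F hη
  have hsum : Summable fun j : ℕ => ∑ m ∈ s, (μ (Dev ρ p m δ (N j))).toReal :=
    summable_sum (fun m _ => h m δ hδ)
  refine Summable.of_nonneg_of_le (fun j => ENNReal.toReal_nonneg) (fun j => ?_) hsum
  have hsub : {x | η ≤
      |((N j : ℕ) : ℝ)⁻¹ * ∑ i ∈ Finset.range (N j), f (p ^ i • x) - ∫ y, f y ∂ρ|} ⊆
      ⋃ m ∈ s, Dev ρ p m δ (N j) := by
    intro x hx
    rw [mem_ofPred_eq] at hx
    by_contra hcon
    simp only [mem_iUnion, not_exists] at hcon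
    have h1 := hs (N j) x (fun m hm => hcon m hm)
    have h2 : av p (N j) F x =
        ((((N j : ℕ) : ℝ)⁻¹ * ∑ i ∈ Finset.range (N j), f (p ^ i • x) : ℝ) : ℂ) := by
      simp only [av, hF, ContinuousMap.coe_mk]
      push_cast
      rfl
    have h3 : ∫ y, F y ∂ρ = ((∫ y, f y ∂ρ : ℝ) : ℂ) := by
      simp only [hF, ContinuousMap.coe_mk]
      rw [integral_complex_ofReal]
    rw [h2, h3, ← Complex.ofReal_sub, Complex.norm_real, Real.norm_eq_abs] at h1
    linarith
  have h1 : μ {x | η ≤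
      |((N j : ℕ) : ℝ)⁻¹ * ∑ i ∈ Finset.range (N j), f (p ^ i • x) - ∫ y, f y ∂ρ|} ≤
      ∑ m ∈ s, μ (Dev ρ p m δ (N j)) :=
    (measure_mono hsub).trans (measure_biUnion_finset_le _ _)
  have h2 := ENNReal.toReal_mono (ENNReal.sum_ne_top.mpr (fun m _ => measure_ne_top μ _)) h1
  rwa [ENNReal.toReal_sum (fun m _ => measure_ne_top μ _)] at h2

/-- Comparison of finite measures through continuous functions. -/
theorem le_of_cont {ν ρ : Measure T} [IsFiniteMeasure ν] [IsFiniteMeasure ρ]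
    (h : ∀ f : C(T, ℝ), (∀ z, 0 ≤ f z) → ∫ z, f z ∂ν ≤ ∫ z, f z ∂ρ) : ν ≤ ρ := by
  have hclosed : ∀ F : Set T, IsClosed F → ν F ≤ ρ F := by
    intro F hF
    have hδ : ∀ n : ℕ, (0 : ℝ) < 1 / ((n : ℝ) + 1) := fun n => by positivity
    have hlim : Tendsto (fun n : ℕ => 1 / ((n : ℝ) + 1)) atTop (𝓝 0) :=
      tendsto_one_div_add_atTop_nhds_zero_nat
    refine le_of_tendsto_of_tendsto
      (tendsto_lintegral_thickenedIndicator_of_isClosed ν hF hδ hlim)
      (tendsto_lintegral_thickenedIndicator_of_isClosed ρ hF hδ hlim)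
      (Eventually.of_forall fun n => ?_)
    have hc : Continuous fun z : T => ((thickenedIndicator (hδ n) F z : ℝ≥0) : ℝ) :=
      NNReal.continuous_coe.comp (thickenedIndicator (hδ n) F).continuous
    have h1 := h ⟨_, hc⟩ (fun z => NNReal.coe_nonneg _)
    simp only [ContinuousMap.coe_mk] at h1
    show ∫⁻ ω, (thickenedIndicator (hδ n) F ω : ℝ≥0∞) ∂ν ≤
      ∫⁻ ω, (thickenedIndicator (hδ n) F ω : ℝ≥0∞) ∂ρ
    rw [lintegral_coe_eq_integral _ (integrable_thickenedIndicator F (hδ n)),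
      lintegral_coe_eq_integral _ (integrable_thickenedIndicator F (hδ n))]
    exact ENNReal.ofReal_le_ofReal h1
  refine Measure.le_iff.2 fun E hE => ?_
  rw [hE.measure_eq_iSup_isClosed_of_ne_top (measure_ne_top ν E)]
  refine iSup₂_le fun K hK => iSup_le fun hKc => ?_
  exact (hclosed K hKc).trans (measure_mono hK)

/-- **Host's theorem with a rate instead of entropy.** -/
theorem half_of_cc {p q : ℕ} (hpq : Half.PQ p q) {κ : ℝ} (hκ : κ < 3 / 2) {μ ρ : Measure T}
    [IsProbabilityMeasure μ] [IsProbabilityMeasure ρ] (hna : ∀ x, μ {x} = 0)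
    (hq : MeasurePreserving (fun x : T => q • x) μ μ) {N : ℕ → ℕ} (hN : StrictMono N)
    (hgap : ∀ᶠ j in atTop, (N (j + 1) : ℝ) ≤ N j + Real.log (N j) ^ κ)
    (h : ∀ m : ℤ, ∀ η : ℝ, 0 < η → Summable fun j : ℕ => (μ (Dev ρ p m η (N j))).toReal) :
    (volume : Measure T) ≤ (2 : ℝ≥0) • ρ := by
  refine le_of_cont fun f hf => ?_
  rw [integral_smul_nnreal_measure]
  by_contra hcon
  rw [not_le] at hcon
  have hcon' : 2 * ∫ z, f z ∂ρ < ∫ z, f z := by
    have e : (2 : ℝ≥0) • ∫ z, f z ∂ρ = 2 * ∫ z, f z ∂ρ := by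
      rw [NNReal.smul_def, smul_eq_mul]
      rfl
    rwa [e] at hcon
  obtain ⟨δ, hδ, hδ2⟩ : ∃ δ : ℝ, 0 < δ ∧ 2 * ∫ z, f z ∂ρ + 6 * δ ≤ ∫ z, f z :=
    ⟨((∫ z, f z) - 2 * ∫ z, f z ∂ρ) / 6, by linarith, by linarith⟩
  set κ' : ℝ := (max κ 1 + 3 / 2) / 2 with hκ'
  have hm1 : κ ≤ max κ 1 := le_max_left _ _
  have hm2 : (1 : ℝ) ≤ max κ 1 := le_max_right _ _
  have hm3 : max κ 1 < 3 / 2 := max_lt hκ (by norm_num)
  have hk1 : 1 < κ' := by rw [hκ']; linarith
  have hk2 : κ' < 3 / 2 := by rw [hκ']; linarith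
  have hk3 : κ < κ' := by rw [hκ']; linarith
  obtain ⟨R0, hR0⟩ := Half.boxes_final hpq hk2 μ hna hq {f} (by simpa using hf) δ hδ
  have hNt : Tendsto N atTop atTop := hN.tendsto_atTop
  have hlog : Tendsto (fun j : ℕ => Real.log (N j)) atTop atTop :=
    Real.tendsto_log_atTop.comp (tendsto_natCast_atTop_atTop.comp hNt)
  have hlogκ : Tendsto (fun j : ℕ => Real.log (N j) ^ κ') atTop atTop :=
    (tendsto_rpow_atTop (by linarith)).comp hlog
  refine hR0 N (fun _ => R0 + 1) hN (Eventually.of_forall fun _ => Nat.le_succ _) ?_ ?_ ?_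
  · exact hlogκ.eventually_ge_atTop _
  · filter_upwards [hgap, hlog.eventually_ge_atTop 1] with j hj1 hj2
    have := Real.rpow_le_rpow_of_exponent_le hj2 hk3.le
    linarith
  · have hs := (dev_cont h f hδ).mul_left ((R0 + 1 : ℕ) : ℝ)
    refine Summable.of_norm_bounded_eventually_nat hs ?_
    filter_upwards [hNt.eventually_ge_atTop 1] with j hj
    rw [Real.norm_of_nonneg measureReal_nonneg]
    set D : Set T := {x | δ ≤
      |((N j : ℕ) : ℝ)⁻¹ * ∑ i ∈ Finset.range (N j), f (p ^ i • x) - ∫ y, f y ∂ρ|} with hD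
    have hDm : MeasurableSet D := by
      apply IsClosed.measurableSet
      apply isClosed_le continuous_const
      fun_prop
    have hsub : Half.Lbx p {f} δ (N j) (R0 + 1) ⊆
        ⋃ b ∈ Finset.range (R0 + 1), (fun x : T => q ^ b • x) ⁻¹' D := by
      intro x hx
      by_contra hcon2
      simp only [mem_iUnion, not_exists, mem_preimage, hD, mem_ofPred_eq, not_le] at hcon2
      have hx' := hx f (by simp)
      have hN0 : (0 : ℝ) < (N j : ℝ) := by exact_mod_cast hj
      -- the box mean as a mean of row means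
      have hbox : Half.avg (Half.bx p (N j) (R0 + 1)) f x =
          ((R0 + 1 : ℕ) : ℝ)⁻¹ * ∑ b ∈ Finset.range (R0 + 1),
            (((N j : ℕ) : ℝ)⁻¹ * ∑ i ∈ Finset.range (N j), f (p ^ i • (q ^ b • x))) := by
        unfold Half.avg Half.bx
        rcases hpq with ⟨rfl, rfl⟩ | ⟨rfl, rfl⟩
        · rw [if_pos rfl, Finset.sum_product, Finset.card_product, Finset.card_range,
            Finset.card_range, Finset.sum_comm, ← Finset.mul_sum]
          simp only [smul_smul]
          push_cast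
          field_simp
        · rw [if_neg (by norm_num), Finset.sum_product, Finset.card_product, Finset.card_range,
            Finset.card_range, ← Finset.mul_sum]
          simp only [smul_smul]
          have e : ∀ b i : ℕ, 2 ^ b * 3 ^ i = 3 ^ i * 2 ^ b := fun b i => mul_comm _ _
          simp only [e]
          push_cast
          field_simp
      have hrow : ∀ b ∈ Finset.range (R0 + 1), (((N j : ℕ) : ℝ)⁻¹ *
          ∑ i ∈ Finset.range (N j), f (p ^ i • (q ^ b • x))) ≤ (∫ y, f y ∂ρ) + δ := by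
        intro b hb
        have := (abs_lt.1 (hcon2 b hb)).2
        linarith
      have h5 : Half.avg (Half.bx p (N j) (R0 + 1)) f x ≤ (∫ y, f y ∂ρ) + δ := by
        rw [hbox, inv_mul_le_iff₀ (by positivity)]
        refine (Finset.sum_le_sum hrow).trans ?_
        rw [Finset.sum_const, Finset.card_range, nsmul_eq_mul]
      linarith
    have h6 : μ.real (Half.Lbx p {f} δ (N j) (R0 + 1)) ≤ ∑ b ∈ Finset.range (R0 + 1), μ.real D := by
      refine (measureReal_mono hsub (measure_ne_top _ _)).trans ?_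
      refine (measureReal_biUnion_finset_le _ _).trans ?_
      refine Finset.sum_le_sum fun b _ => ?_
      have hqb : MeasurePreserving (fun x : T => q ^ b • x) μ μ := by
        have := hq.iterate b
        have e : ∀ c : ℕ, (fun x : T => q • x)^[c] = fun x : T => q ^ c • x := by
          intro c
          funext x
          induction c with
          | zero => simp
          | succ c ih => rw [Function.iterate_succ_apply', ih, smul_smul, pow_succ']
        rwa [e] at this
      exact (hqb.measureReal_preimage hDm.nullMeasurableSet).le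
    refine h6.trans (le_of_eq ?_)
    rw [Finset.sum_const, Finset.card_range, nsmul_eq_mul]
    rfl

end Pool.Agent.PE.OneMap
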