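import Pool.Agent.LLN.Main
import Pool.Agent.LLN.Corr
import Pool.Agent.LLN.Seq
import Pool.Agent.PE.OneMap

/-!
# Rates in the law of large numbers for one of the maps `x ↦ 2 x`, `x ↦ 3 x`

Let `{p, q} = {2, 3}` and let `μ` be a probability measure on the circle without atoms, invariant under `×q`. If the
averages of the characters along `×p` converge completely (with respect to `μ`) to the Fourier coefficients of a measure
`ρ`, along a sequence of times with gaps at most `(log N) ^ κ`, `κ < 3 / 2`, then `ρ` is at least half of Lebesgue measure,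
and it is Lebesgue measure if it is ergodic under `×p`. Hence a measure `μ` without atoms which is invariant under both
maps is Lebesgue measure if the averages along ONE of them converge completely along such a sequence, for example if the
autocorrelations of the characters are summable.
-/

open Set Filter Topology MeasureTheory
open scoped ENNReal NNReal

namespace Pool.Agent.Results.MP_e27144_an.LargeNumbers

open Pool.Agent.LLN

/-- Fourier coefficient `∫ e(m x) dμ`. -/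
noncomputable def coef (μ : Measure (AddCircle (1 : ℝ))) (m : ℤ) : ℂ := ∫ x, fourier m x ∂μ

/-- The average `(1 / N) ∑_{i < N} e(m p ^ i x)`. -/
noncomputable def avg (p : ℕ) (m : ℤ) (N : ℕ) (x : AddCircle (1 : ℝ)) : ℂ :=
  (N : ℂ)⁻¹ * ∑ i ∈ Finset.range N, fourier m (p ^ i • x)

/-- The averages of the characters along `×p` converge completely with respect to `μ` to the Fourier coefficients of `ρ`,
along some sequence of times with gaps at most `(log N) ^ κ`, for some `κ < 3 / 2`. -/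
def Complete (p : ℕ) (μ ρ : Measure (AddCircle (1 : ℝ))) : Prop :=
  ∃ κ : ℝ, κ < 3 / 2 ∧ ∃ N : ℕ → ℕ, StrictMono N ∧
    (∀ᶠ j in atTop, (N (j + 1) : ℝ) ≤ N j + Real.log (N j) ^ κ) ∧
    ∀ m : ℤ, ∀ η : ℝ, 0 < η →
      Summable fun j : ℕ => (μ {x | η ≤ ‖avg p m (N j) x - coef ρ m‖}).toReal

theorem tfae {μ : Measure (AddCircle (1 : ℝ))} [IsProbabilityMeasure μ]
    (h2 : MeasurePreserving (fun x : AddCircle (1 : ℝ) => (2 : ℕ) • x) μ μ)
    (h3 : MeasurePreserving (fun x : AddCircle (1 : ℝ) => (3 : ℕ) • x) μ μ)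
    (hat : ∀ x, μ {x} = 0) {p : ℕ} (hp : p = 2 ∨ p = 3) :
    List.TFAE [
      μ = volume,
      Complete p μ μ,
      ∃ β : ℝ, β < 1 / 2 ∧ ∀ m : ℤ, ∃ (r : ℕ) (C : ℝ), ∀ N : ℕ, 1 ≤ N →
        ∫ x, ‖avg p m N x - coef μ m‖ ^ r ∂μ ≤ C * (1 + Real.log N) ^ β / N,
      ∀ m : ℤ, Summable fun g : ℕ =>
        ‖coef μ (m * ((p : ℤ) ^ g - 1)) - (‖coef μ m‖ : ℂ) ^ 2‖] := by
  have hp2 : 2 ≤ p := by rcases hp with rfl | rfl <;> norm_num
  have hpμ : MeasurePreserving (fun x : AddCircle (1 : ℝ) => p • x) μ μ := by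
    rcases hp with rfl | rfl <;> assumption
  tfae_have 1 → 4 := by
    rintro rfl
    exact fun m => vol_corr hp2 m
  tfae_have 4 → 3 := by
    intro h
    refine ⟨0, by norm_num, fun m => ?_⟩
    obtain ⟨C, hC⟩ := corr_var hp2 hpμ (h m)
    refine ⟨2, C, fun N hN => ?_⟩
    rw [Real.rpow_zero, mul_one]
    exact hC N hN
  tfae_have 3 → 2 := by
    rintro ⟨β, hβ, h⟩
    obtain ⟨N, hN, hN1, hgap, hs⟩ := seq_exists (β := β) (κ := max ((β + 1 + 3 / 2) / 2) 1)
      (lt_of_lt_of_le (by linarith) (le_max_left _ _)) (lt_of_lt_of_le one_pos (le_max_right _ _))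
    refine ⟨max ((β + 1 + 3 / 2) / 2) 1, max_lt (by linarith) (by norm_num), N, hN, hgap, ?_⟩
    exact cc_of_moments hN1 hs h
  tfae_have 2 → 1 := by
    rintro ⟨κ, hκ, N, hN, hgap, h⟩
    rcases hp with rfl | rfl
    · exact eq_volume_of_cc h2 h3 hat (Or.inl ⟨rfl, rfl⟩) hκ hN hgap h
    · exact eq_volume_of_cc h2 h3 hat (Or.inr ⟨rfl, rfl⟩) hκ hN hgap h
  tfae_finish

/-- The case of a measure invariant under `×q` only. -/
theorem one_map {μ ρ : Measure (AddCircle (1 : ℝ))} [IsProbabilityMeasure μ] [IsProbabilityMeasure ρ]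
    (hna : ∀ x, μ {x} = 0) {p q : ℕ} (hpq : (p = 2 ∧ q = 3) ∨ (p = 3 ∧ q = 2))
    (hq : MeasurePreserving (fun x : AddCircle (1 : ℝ) => q • x) μ μ) {κ : ℝ} (hκ : κ < 3 / 2)
    {N : ℕ → ℕ} (hN : StrictMono N)
    (hgap : ∀ᶠ j in atTop, (N (j + 1) : ℝ) ≤ N j + Real.log (N j) ^ κ)
    (h : ∀ m : ℤ, ∀ η : ℝ, 0 < η →
      Summable fun j : ℕ => (μ {x | η ≤ ‖avg p m (N j) x - coef ρ m‖}).toReal) :
    volume ≤ (2 : ℝ≥0) • ρ ∧
      (Ergodic (fun x : AddCircle (1 : ℝ) => p • x) ρ → ρ = volume) := by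
  have h1 := Pool.Agent.PE.OneMap.half_of_cc hpq hκ hna hq hN hgap h
  refine ⟨h1, fun herg => ?_⟩
  have hac : (volume : Measure (AddCircle (1 : ℝ))) ≪ ρ := by
    refine Measure.absolutelyContinuous_of_le_smul (c := (2 : ℝ≥0∞)) ?_
    exact h1
  have hp : MeasurePreserving (fun x : AddCircle (1 : ℝ) => p • x)
      (volume : Measure (AddCircle (1 : ℝ))) volume := by
    rcases hpq with ⟨rfl, rfl⟩ | ⟨rfl, rfl⟩
    · exact (AddCircle.ergodic_nsmul (by norm_num)).toMeasurePreserving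
    · exact (AddCircle.ergodic_nsmul (by norm_num)).toMeasurePreserving
  obtain ⟨c, hc⟩ := herg.eq_smul_of_absolutelyContinuous hp hac
  have h2 : (1 : ℝ≥0∞) = c := by
    have h3 : (volume : Measure (AddCircle (1 : ℝ))) univ = (c • ρ) univ := by rw [← hc]
    have h4 : (volume : Measure (AddCircle (1 : ℝ))) univ = 1 := by simp
    have h5 : ρ univ = 1 := measure_univ
    rw [Measure.smul_apply, smul_eq_mul, h5, h4, mul_one] at h3
    exact h3
  rw [hc, ← h2, one_smul]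

/-- **Main theorem.** -/
theorem result :
    (∀ μ ρ : Measure (AddCircle (1 : ℝ)), IsProbabilityMeasure μ → IsProbabilityMeasure ρ →
      (∀ x, μ {x} = 0) → ∀ p q : ℕ, (p = 2 ∧ q = 3) ∨ (p = 3 ∧ q = 2) →
      MeasurePreserving (fun x : AddCircle (1 : ℝ) => q • x) μ μ → Complete p μ ρ →
        volume ≤ (2 : ℝ≥0) • ρ ∧
          (Ergodic (fun x : AddCircle (1 : ℝ) => p • x) ρ → ρ = volume)) ∧
    ∀ μ : Measure (AddCircle (1 : ℝ)), IsProbabilityMeasure μ → (∀ x, μ {x} = 0) →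
      MeasurePreserving (fun x : AddCircle (1 : ℝ) => (2 : ℕ) • x) μ μ →
      MeasurePreserving (fun x : AddCircle (1 : ℝ) => (3 : ℕ) • x) μ μ →
      ∀ p : ℕ, p = 2 ∨ p = 3 → List.TFAE [
        μ = volume,
        Complete p μ μ,
        ∃ β : ℝ, β < 1 / 2 ∧ ∀ m : ℤ, ∃ (r : ℕ) (C : ℝ), ∀ N : ℕ, 1 ≤ N →
          ∫ x, ‖avg p m N x - coef μ m‖ ^ r ∂μ ≤ C * (1 + Real.log N) ^ β / N,
        ∀ m : ℤ, Summable fun g : ℕ =>
          ‖coef μ (m * ((p : ℤ) ^ g - 1)) - (‖coef μ m‖ : ℂ) ^ 2‖] := by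
  refine ⟨?_, fun μ _ hat h2 h3 p hp => tfae h2 h3 hat hp⟩
  rintro μ ρ _ _ hna p q hpq hq ⟨κ, hκ, N, hN, hgap, h⟩
  exact one_map hna hpq hq hκ hN hgap h

end Pool.Agent.Results.MP_e27144_an.LargeNumbers
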