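import Pool.Agent.LLN.Main
import Pool.Agent.LLN.SepV
import Pool.Agent.LogSc.Inj
import Pool.Agent.LogSc.Predictor

/-!
# The singular part of a measure invariant under `×2`, `×3`, and prediction of digits (library)
-/

open Set Filter Topology MeasureTheory
open scoped ENNReal NNReal

namespace Pool.Agent.PE.SPart

open Pool.Agent.LLN

theorem rpow_mul_le {κ κ' : ℝ} (h : κ < κ') (c : ℕ) :
    ∀ᶠ n : ℕ in atTop, c * Real.log n ^ κ ≤ Real.log n ^ κ' := by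
  have h0 : Tendsto (fun n : ℕ => Real.log n) atTop atTop :=
    Real.tendsto_log_atTop.comp tendsto_natCast_atTop_atTop
  have h2 : Tendsto (fun y : ℝ => y ^ (κ' - κ)) atTop atTop := tendsto_rpow_atTop (by linarith)
  filter_upwards [h0.eventually_ge_atTop 1, (h2.comp h0).eventually_ge_atTop (c : ℝ)] with n hn1 hn4
  have hpos : 0 < Real.log n := by linarith
  calc c * Real.log n ^ κ ≤ Real.log n ^ (κ' - κ) * Real.log n ^ κ :=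
        mul_le_mul_of_nonneg_right hn4 (Real.rpow_nonneg hpos.le _)
    _ = Real.log n ^ κ' := by rw [← Real.rpow_add hpos]; congr 1; ring

theorem s_part (μ : Measure (AddCircle (1 : ℝ))) [IsProbabilityMeasure μ]
    (_h2 : MeasurePreserving (fun x : AddCircle (1 : ℝ) => (2 : ℕ) • x) μ μ)
    (_h3 : MeasurePreserving (fun x : AddCircle (1 : ℝ) => (3 : ℕ) • x) μ μ) :
    ∃ S : Set (AddCircle (1 : ℝ)), MeasurableSet S ∧
      (fun x : AddCircle (1 : ℝ) => (2 : ℕ) • x) ⁻¹' S = S ∧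
      (fun x : AddCircle (1 : ℝ) => (3 : ℕ) • x) ⁻¹' S = S ∧
      (volume : Measure (AddCircle (1 : ℝ))) S = 0 ∧
      μ = μ Sᶜ • (volume : Measure (AddCircle (1 : ℝ))) + μ.restrict S ∧
      ∀ κ δ : ℝ, κ < 3 / 2 → 0 < δ →
        (∀ᶠ n : ℕ in atTop, ∃ D ⊆ S, MeasurableSet D ∧ μ (S \ D) ≤ ENNReal.ofReal δ ∧
          ∀ x ∈ D, ∀ y ∈ D, ∀ s t : ℕ, ((s + t : ℕ) : ℝ) ≤ Real.log n ^ κ →
            ∀ θ : AddCircle (1 : ℝ), θ ≠ 0 → (2 ^ s * 3 ^ t : ℕ) • θ = 0 →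
              ((2 : ℝ) ^ n)⁻¹ ≤ ‖x - y - θ‖) ∧
        (∀ b : ℕ, (∃ u v : ℕ, b = 2 ^ u * 3 ^ v) → 2 ≤ b →
          ∀ᶠ n : ℕ in atTop, ∀ k : ℕ, (k : ℝ) ≤ Real.log n ^ κ → ∃ F : ℕ → ℕ,
            μ {x | x ∈ S ∧ ⌊(b : ℝ) ^ k * (AddCircle.equivIco (1 : ℝ) 0 x : ℝ)⌋₊ ≠
              F ⌊(b : ℝ) ^ n * (AddCircle.equivIco (1 : ℝ) 0 (b ^ k • x) : ℝ)⌋₊} ≤
                ENNReal.ofReal δ) := by
  obtain ⟨S, hS, hS2, hS3, hS0, hdec, hsing, hσ2, hσ3⟩ := decomp μ _h2 _h3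
  refine ⟨S, hS, hS2, hS3, hS0, hdec, ?_⟩
  have h4 : MeasurePreserving (fun x : AddCircle (1 : ℝ) => (4 : ℕ) • x) (μ.restrict S)
      (μ.restrict S) := by
    have := mp_smul hσ2 hσ3 2 0
    simpa using this
  have h9 : MeasurePreserving (fun x : AddCircle (1 : ℝ) => (9 : ℕ) • x) (μ.restrict S)
      (μ.restrict S) := by
    have := mp_smul hσ2 hσ3 0 2
    simpa using this
  obtain ⟨X, hX, hX0, hXi⟩ := Pool.Agent.LogSc.inj_of_singular (Or.inr ⟨rfl, rfl⟩) hσ2 h9 hsing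
  obtain ⟨Y, hY, hY0, hYi⟩ := Pool.Agent.LogSc.inj_of_singular (Or.inl ⟨rfl, rfl⟩) hσ3 h4 hsing
  have hsep : ∀ κ δ : ℝ, κ < 3 / 2 → 0 < δ → ∀ᶠ n : ℕ in atTop, ∃ D ⊆ S, MeasurableSet D ∧
        μ (S \ D) ≤ ENNReal.ofReal δ ∧
        ∀ x ∈ D, ∀ y ∈ D, ∀ s t : ℕ, ((s + t : ℕ) : ℝ) ≤ Real.log n ^ κ →
          ∀ θ : AddCircle (1 : ℝ), θ ≠ 0 → (2 ^ s * 3 ^ t : ℕ) • θ = 0 →
            ((2 : ℝ) ^ n)⁻¹ ≤ ‖x - y - θ‖ := by
    intro κ δ hκ hδ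
    have hδ' : ENNReal.ofReal δ ≠ 0 := by
      rw [Ne, ENNReal.ofReal_eq_zero, not_le]; exact hδ
    filter_upwards [sepv hσ2 hσ3 hX hX0 hXi hY hY0 hYi hκ hδ'] with n hn
    obtain ⟨D, hD, hDδ, hDs⟩ := hn
    refine ⟨D ∩ S, inter_subset_right, hD.inter hS, ?_, fun x hx y hy => hDs x hx.1 y hy.1⟩
    have e : S \ (D ∩ S) = Dᶜ ∩ S := by
      ext x
      simp only [Set.mem_sdiff, mem_inter_iff, mem_compl_iff]
      tauto
    rw [e, ← Measure.restrict_apply hD.compl]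
    exact hDδ
  intro κ δ hκ hδ
  refine ⟨hsep κ δ hκ hδ, ?_⟩
  rintro b ⟨u, v, rfl⟩ hb
  set b : ℕ := 2 ^ u * 3 ^ v with hbdef
  have hκ' : κ < (κ + 3 / 2) / 2 := by linarith
  filter_upwards [hsep ((κ + 3 / 2) / 2) δ (by linarith) hδ, rpow_mul_le hκ' (u + v)]
    with n hn hnl k hk
  obtain ⟨D, hDS, hD, hDδ, hDs⟩ := hn
  obtain ⟨F, hF⟩ := Pool.Agent.LogSc.predictor (D := D) (b := b) (k := k) (n := n) hb (by
    intro x hx y hy θ hθ hθ0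
    refine hDs x hx y hy (u * k) (v * k) ?_ θ hθ ?_
    · refine le_trans ?_ hnl
      have e1 : ((u * k + v * k : ℕ) : ℝ) = ((u + v : ℕ) : ℝ) * k := by push_cast; ring
      rw [e1]
      exact mul_le_mul_of_nonneg_left hk (Nat.cast_nonneg _)
    · have e1 : 2 ^ (u * k) * 3 ^ (v * k) = b ^ k := by
        rw [hbdef, mul_pow, ← pow_mul, ← pow_mul]
      rw [e1]
      exact hθ0)
  refine ⟨F, le_trans (measure_mono ?_) hDδ⟩
  rintro x ⟨hxS, hx⟩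
  refine ⟨hxS, fun hxD => hx ?_⟩
  exact hF x hxD

end Pool.Agent.PE.SPart
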