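import Pool.Agent.PE.Cnt

open MeasureTheory Filter Topology

namespace Pool.Agent.PE

/-! PEE. The information tail of an atomless invariant measure is at least exponential. HINT: `c` of `poor_countable`, `C = 2 / c`.
If `μ (light L) < 2 ^ (-C L)` for all large `L`, then with `L = Nat.floor (c log_2 n)` (`2 ^ L ≤ n ^ c < 2 ^ (L + 1)`)
`μ {¬ Poor n} ≤ 8 (2 / n ^ c) ^ C ≤ C' / n ^ 2` (`rich_measure`), summable, so almost every `x` is eventually poor (Borel-Cantelli);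
the set of these points is countable and `μ` has no atom: contradiction. -/

private theorem tail_choose {c : ℝ} (hc : 0 < c) {n : ℕ} (hn : 1 ≤ n) :
    (2 : ℝ) ^ ⌊c * Real.logb 2 n⌋₊ ≤ (n : ℝ) ^ c ∧
      (n : ℝ) ^ c ≤ (2 : ℝ) ^ (⌊c * Real.logb 2 n⌋₊ + 1) := by
  have hn1 : (1 : ℝ) ≤ n := by exact_mod_cast hn
  have hn0 : (0 : ℝ) < n := by linarith
  have hl : 0 ≤ Real.logb 2 n := Real.logb_nonneg (by norm_num) hn1
  have e : (n : ℝ) ^ c = (2 : ℝ) ^ (c * Real.logb 2 n) := by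
    rw [mul_comm, Real.rpow_mul (by norm_num), Real.rpow_logb (by norm_num) (by norm_num) hn0]
  rw [e]
  constructor
  · rw [← Real.rpow_natCast]
    exact Real.rpow_le_rpow_of_exponent_le (by norm_num) (Nat.floor_le (mul_nonneg hc.le hl))
  · rw [← Real.rpow_natCast]
    refine Real.rpow_le_rpow_of_exponent_le (by norm_num) ?_
    push_cast
    exact (Nat.lt_floor_add_one _).le

private theorem tail_bound {c : ℝ} (hc : 0 < c) {n L : ℕ} (hn : 1 ≤ n)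
    (hL : (n : ℝ) ^ c ≤ (2 : ℝ) ^ (L + 1)) :
    (2 : ℝ) ^ (-(2 / c * L)) ≤ (2 : ℝ) ^ (2 / c) * (1 / (n : ℝ) ^ 2) := by
  have hn1 : (1 : ℝ) ≤ n := by exact_mod_cast hn
  have hn0 : (0 : ℝ) < n := by linarith
  have hC : 0 < 2 / c := by positivity
  have h1 : ((n : ℝ) ^ c) ^ (2 / c) ≤ ((2 : ℝ) ^ (L + 1)) ^ (2 / c) :=
    Real.rpow_le_rpow (by positivity) hL hC.le
  have e1 : ((n : ℝ) ^ c) ^ (2 / c) = (n : ℝ) ^ 2 := by
    rw [← Real.rpow_mul hn0.le, mul_div_cancel₀ _ hc.ne']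
    norm_num
  have e2 : ((2 : ℝ) ^ (L + 1)) ^ (2 / c) = (2 : ℝ) ^ (2 / c * L) * (2 : ℝ) ^ (2 / c) := by
    rw [← Real.rpow_natCast, ← Real.rpow_mul (by norm_num), ← Real.rpow_add (by norm_num)]
    congr 1
    push_cast
    ring
  rw [e1, e2] at h1
  rw [Real.rpow_neg (by norm_num), mul_one_div, inv_eq_one_div,
    div_le_div_iff₀ (by positivity) (by positivity)]
  linarith [mul_comm ((2 : ℝ) ^ (2 / c * L)) ((2 : ℝ) ^ (2 / c))]

theorem tail : ∃ C : ℝ, 0 < C ∧ ∀ (μ : Measure T) [IsProbabilityMeasure μ],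
    MeasurePreserving (fun x : T => 2 • x) μ μ → MeasurePreserving (fun x : T => 3 • x) μ μ →
    (∀ x, μ {x} = 0) → ∀ β : ℝ, 0 ≤ β → β < 1 / 2 → ∃ᶠ L : ℕ in atTop, (2 : ℝ) ^ (-(C * L)) ≤
      (μ {x : T | (μ {y : T | cell 2 L y = cell 2 L x}).toReal ≤ (2 : ℝ) ^ (-(β * L))}).toReal := by
  obtain ⟨c, hc, hcnt⟩ := poor_countable
  refine ⟨2 / c, by positivity, ?_⟩
  intro μ _ h2 h3 hat β hβ0 hβ1
  by_contra hcon
  rw [not_frequently] at hcon
  obtain ⟨L0, hL0⟩ := eventually_atTop.1 hcon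
  -- the levels
  have hlev : Tendsto (fun n : ℕ => ⌊c * Real.logb 2 n⌋₊) atTop atTop := by
    refine tendsto_nat_floor_atTop.comp ?_
    refine Tendsto.const_mul_atTop hc ?_
    exact (Real.tendsto_logb_atTop (by norm_num)).comp tendsto_natCast_atTop_atTop
  obtain ⟨N1, hN1⟩ := eventually_atTop.1 (hlev.eventually_ge_atTop L0)
  set N0 := max N1 4 with hN0
  have key : ∀ n : ℕ, N0 ≤ n → μ {x : T | ¬ Poor c β n x} ≤
      ENNReal.ofReal (8 * (2 : ℝ) ^ (2 / c) * (1 / (n : ℝ) ^ 2)) := by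
    intro n hn
    have hn4 : 4 ≤ n := (le_max_right _ _).trans hn
    have hn1 : 1 ≤ n := by omega
    obtain ⟨hl1, hl2⟩ := tail_choose hc hn1
    have hlt := hL0 _ (hN1 n ((le_max_left _ _).trans hn))
    rw [not_le] at hlt
    have hb := tail_bound hc hn1 hl2
    refine (rich_measure h2 h3 hc hn4 hl1 hl2 hβ0).trans ?_
    have h4 : μ {x : T | (μ {y : T | cell 2 ⌊c * Real.logb 2 n⌋₊ y =
        cell 2 ⌊c * Real.logb 2 n⌋₊ x}).toReal ≤ (2 : ℝ) ^ (-(β * ⌊c * Real.logb 2 n⌋₊))} ≤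
        ENNReal.ofReal ((2 : ℝ) ^ (2 / c) * (1 / (n : ℝ) ^ 2)) := by
      rw [← ENNReal.ofReal_toReal (measure_ne_top μ _)]
      exact ENNReal.ofReal_le_ofReal (hlt.le.trans hb)
    calc 8 * μ {x : T | (μ {y : T | cell 2 ⌊c * Real.logb 2 n⌋₊ y =
        cell 2 ⌊c * Real.logb 2 n⌋₊ x}).toReal ≤ (2 : ℝ) ^ (-(β * ⌊c * Real.logb 2 n⌋₊))}
        ≤ 8 * ENNReal.ofReal ((2 : ℝ) ^ (2 / c) * (1 / (n : ℝ) ^ 2)) := by gcongr
      _ = ENNReal.ofReal (8 * (2 : ℝ) ^ (2 / c) * (1 / (n : ℝ) ^ 2)) := by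
        rw [mul_assoc, ENNReal.ofReal_mul (by norm_num : (0 : ℝ) ≤ 8)]
        norm_num
  have hsum : Summable fun n : ℕ => 8 * (2 : ℝ) ^ (2 / c) * (1 / ((n + N0 : ℕ) : ℝ) ^ 2) := by
    have h5 : Summable fun n : ℕ => 1 / (n : ℝ) ^ 2 :=
      Real.summable_one_div_nat_pow.2 (by norm_num)
    exact ((summable_nat_add_iff N0).2 h5).mul_left _
  have hBC : ∀ᵐ x ∂μ, ∀ᶠ n : ℕ in atTop, x ∉ {x : T | ¬ Poor c β (n + N0) x} := by
    refine ae_eventually_notMem (ne_of_lt ?_)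
    calc ∑' n : ℕ, μ {x : T | ¬ Poor c β (n + N0) x}
        ≤ ∑' n : ℕ, ENNReal.ofReal (8 * (2 : ℝ) ^ (2 / c) * (1 / ((n + N0 : ℕ) : ℝ) ^ 2)) :=
          ENNReal.tsum_le_tsum fun n => key (n + N0) (by omega)
      _ < ⊤ := by
        rw [← ENNReal.ofReal_tsum_of_nonneg (fun n => by positivity) hsum]
        exact ENNReal.ofReal_lt_top
  have hae : ∀ᵐ x ∂μ, x ∈ {x : T | ∀ᶠ n : ℕ in atTop, Poor c β n x} := by
    filter_upwards [hBC] with x hx
    obtain ⟨n2, hn2⟩ := eventually_atTop.1 hx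
    refine eventually_atTop.2 ⟨n2 + N0, fun n hn => ?_⟩
    have h6 := hn2 (n - N0) (by omega)
    rw [Nat.sub_add_cancel (by omega)] at h6
    simpa using h6
  have : NullSingletonClass μ := ⟨hat⟩
  have h0 : μ {x : T | ∀ᶠ n : ℕ in atTop, Poor c β n x} = 0 :=
    (hcnt β hβ1).measure_zero μ
  have h1 : (1 : ENNReal) ≤ μ {x : T | ∀ᶠ n : ℕ in atTop, Poor c β n x} := by
    rw [← measure_univ (μ := μ)]
    refine measure_mono_ae ?_
    filter_upwards [hae] with x hx _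
    exact hx
  rw [h0] at h1
  simp at h1

end Pool.Agent.PE
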