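import Pool.Agent.PE.Arc
import Pool.Agent.Ord2.Arith

open MeasureTheory Filter Topology

namespace Pool.Agent.PE

private theorem TWO_rep (u : T) : ∃ ζ : ℝ, (ζ : T) = u ∧ |ζ| = ‖u‖ := by
  induction u using QuotientAddGroup.induction_on with
  | H t =>
    refine ⟨t - round t, ?_, ?_⟩
    · have h1 : ((round t : ℝ) : T) = 0 := by
        rw [AddCircle.coe_eq_zero_iff]
        exact ⟨round t, by simp⟩
      have h2 : ((t - round t : ℝ) : T) = (t : T) - ((round t : ℝ) : T) := rfl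
      rw [h2, h1, sub_zero]
    · have h := AddCircle.norm_eq (p := (1 : ℝ)) (x := t)
      simp only [inv_one, one_mul, mul_one] at h
      exact h.symm

private theorem TWO_smul (g : ℕ) (ζ : ℝ) : g • (ζ : T) = (((g : ℝ) * ζ : ℝ) : T) := by
  rw [← nsmul_eq_mul]
  rfl

/-! PET. The two-point theorem with polynomial scale. HINT: `c = c1` of `arc_count` (or smaller). Let `ζ` be a representative of `x - y`
with `|ζ| = ‖x - y‖`, `s = 2 ^ n ζ`, `1/2 ≤ |s| ≤ 1`; for `b < n / 4`: `fl b ≤ n` and `2 ^ (n - fl b) 3 ^ b ζ = s th b`. If both points are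
poor, then for at least `3/4` of the `b < n / 4` there are `z ∈ Z`, `z' ∈ Z'` with `‖s th b - (z - z')‖ ≤ 2 n ^ (-c)`; by `arc_count` this
holds for at most `n ^ (2 c β) C (2 n ^ (-c) n / 4 + (n / 4) ^ (1 - c1))` of them: less than `3/4 (n / 4)` for large `n` as `2 β < 1`. -/

theorem two_point : ∃ c : ℝ, 0 < c ∧ ∀ β : ℝ, β < 1 / 2 → ∃ n1 : ℕ, ∀ n ≥ n1, ∀ x y : T,
    (1 / 2 : ℝ) ^ (n + 1) ≤ ‖x - y‖ → ‖x - y‖ ≤ (1 / 2 : ℝ) ^ n → Poor c β n x → ¬ Poor c β n y := by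
  classical
  obtain ⟨C, c, hC, hc, hc1, harc⟩ := arc_count
  refine ⟨c, hc, fun β hβ => ?_⟩
  have hδ : 0 < c * (1 - 2 * β) := mul_pos hc (by linarith)
  have hlim : Tendsto (fun n : ℕ => 10 * C * (n : ℝ) ^ (-(c * (1 - 2 * β)))) atTop (𝓝 (10 * C * 0)) :=
    ((tendsto_rpow_neg_atTop hδ).comp tendsto_natCast_atTop_atTop).const_mul _
  rw [mul_zero] at hlim
  have hev := hlim.eventually (gt_mem_nhds (show (0 : ℝ) < 3 / 4 by norm_num))
  obtain ⟨n1, hn1⟩ := (hev.and (eventually_ge_atTop 8)).exists_forall_of_atTop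
  refine ⟨n1, fun n hn x y hxy1 hxy2 hx hy => ?_⟩
  obtain ⟨hsmall, hn8⟩ := hn1 n hn
  have hnpos : (0 : ℝ) < n := by
    have : 0 < n := by omega
    exact_mod_cast this
  obtain ⟨Z, hZ, hZ2⟩ := hx
  obtain ⟨Z', hZ', hZ2'⟩ := hy
  obtain ⟨ζ, hζ, hζn⟩ := TWO_rep (x - y)
  obtain ⟨s, hs⟩ : ∃ s : ℝ, s = 2 ^ n * ζ := ⟨_, rfl⟩
  have hsabs : |s| = 2 ^ n * ‖x - y‖ := by
    rw [hs, abs_mul, hζn, abs_of_pos (by positivity)]
  have h2n : (2 : ℝ) ^ n * (1 / 2) ^ n = 1 := by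
    rw [← mul_pow]; norm_num
  have hs1 : 1 / 2 ≤ |s| := by
    rw [hsabs]
    calc (1 / 2 : ℝ) = 2 ^ n * (1 / 2) ^ (n + 1) := by rw [pow_succ, ← mul_assoc, h2n, one_mul]
      _ ≤ 2 ^ n * ‖x - y‖ := mul_le_mul_of_nonneg_left hxy1 (by positivity)
  have hs2 : |s| ≤ 1 := by
    rw [hsabs]
    exact (mul_le_mul_of_nonneg_left hxy2 (by positivity)).trans h2n.le
  -- the point of the window
  have hg : ∀ b, b < n / 4 → (2 ^ (n - Ord2.fl b) * 3 ^ b) • x - (2 ^ (n - Ord2.fl b) * 3 ^ b) • y =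
      ((s * Ord2.th b : ℝ) : T) := by
    intro b hb
    rw [← nsmul_sub, ← hζ, TWO_smul]
    congr 1
    have h1 := Ord2.gg_eq n 0 b (by omega)
    unfold Ord2.gg at h1
    rw [Nat.add_zero] at h1
    rw [h1, hs]
    ring
  set B := n / 4 with hB
  set ρ : ℝ := 2 * (n : ℝ) ^ (-c) with hρ
  have hρ0 : 0 < ρ := by positivity
  have hcover : (Finset.range B) ⊆
      ((Finset.range B).filter (fun b => ∀ z ∈ Z, (n : ℝ) ^ (-c) < ‖(2 ^ (n - Ord2.fl b) * 3 ^ b) • x - z‖)) ∪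
      ((Finset.range B).filter (fun b => ∀ z ∈ Z', (n : ℝ) ^ (-c) < ‖(2 ^ (n - Ord2.fl b) * 3 ^ b) • y - z‖)) ∪
      ((Z ×ˢ Z').biUnion fun p => (Finset.range B).filter fun b : ℕ =>
        ‖((s * Ord2.th b : ℝ) : T) - (p.1 - p.2)‖ ≤ ρ) := by
    intro b hb
    rw [Finset.mem_union, Finset.mem_union]
    by_cases h1 : ∀ z ∈ Z, (n : ℝ) ^ (-c) < ‖(2 ^ (n - Ord2.fl b) * 3 ^ b) • x - z‖
    · exact Or.inl (Or.inl (Finset.mem_filter.2 ⟨hb, h1⟩))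
    by_cases h2 : ∀ z ∈ Z', (n : ℝ) ^ (-c) < ‖(2 ^ (n - Ord2.fl b) * 3 ^ b) • y - z‖
    · exact Or.inl (Or.inr (Finset.mem_filter.2 ⟨hb, h2⟩))
    push Not at h1 h2
    obtain ⟨z, hz, hz1⟩ := h1
    obtain ⟨z', hz', hz1'⟩ := h2
    refine Or.inr (Finset.mem_biUnion.2 ⟨(z, z'), Finset.mem_product.2 ⟨hz, hz'⟩,
      Finset.mem_filter.2 ⟨hb, ?_⟩⟩)
    rw [← hg b (Finset.mem_range.1 hb)]
    have e : (2 ^ (n - Ord2.fl b) * 3 ^ b) • x - (2 ^ (n - Ord2.fl b) * 3 ^ b) • y - (z - z') =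
        ((2 ^ (n - Ord2.fl b) * 3 ^ b) • x - z) - ((2 ^ (n - Ord2.fl b) * 3 ^ b) • y - z') := by abel
    show ‖(2 ^ (n - Ord2.fl b) * 3 ^ b) • x - (2 ^ (n - Ord2.fl b) * 3 ^ b) • y - (z - z')‖ ≤ ρ
    rw [e]
    refine (norm_sub_le _ _).trans ?_
    rw [hρ]
    linarith
  have hcard1 := (Finset.card_le_card hcover).trans ((Finset.card_union_le _ _).trans
    (Nat.add_le_add_right (Finset.card_union_le _ _) _))
  rw [Finset.card_range] at hcard1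
  have hcard2 : ((((Z ×ˢ Z').biUnion fun p => (Finset.range B).filter fun b : ℕ =>
        ‖((s * Ord2.th b : ℝ) : T) - (p.1 - p.2)‖ ≤ ρ).card : ℕ) : ℝ) ≤
      (Z.card : ℝ) * Z'.card * (C * (ρ * B + (B : ℝ) ^ (1 - c))) := by
    have h1 : ((((Z ×ˢ Z').biUnion fun p => (Finset.range B).filter fun b : ℕ =>
        ‖((s * Ord2.th b : ℝ) : T) - (p.1 - p.2)‖ ≤ ρ).card : ℕ) : ℝ) ≤
        ∑ p ∈ Z ×ˢ Z', (((Finset.range B).filter fun b : ℕ =>
        ‖((s * Ord2.th b : ℝ) : T) - (p.1 - p.2)‖ ≤ ρ).card : ℝ) := by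
      exact_mod_cast Finset.card_biUnion_le
    refine h1.trans ((Finset.sum_le_sum fun p _ => harc B s hs1 hs2 (p.1 - p.2) ρ hρ0).trans ?_)
    rw [Finset.sum_const, Finset.card_product, nsmul_eq_mul]
    push_cast
    exact le_rfl
  have hZZ : (Z.card : ℝ) * Z'.card ≤ (n : ℝ) ^ (2 * c * β) := by
    calc (Z.card : ℝ) * Z'.card ≤ (n : ℝ) ^ (c * β) * (n : ℝ) ^ (c * β) :=
          mul_le_mul hZ hZ' (Nat.cast_nonneg _) (by positivity)
      _ = (n : ℝ) ^ (2 * c * β) := by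
          rw [← Real.rpow_add hnpos]
          congr 1
          ring
  have hBpos : (0 : ℝ) < B := by
    have : 0 < B := by omega
    exact_mod_cast this
  have hBn : (n : ℝ) ≤ 8 * B := by
    have : n ≤ 8 * B := by omega
    exact_mod_cast this
  have hpow : (B : ℝ) ^ (1 - c) ≤ 8 * (n : ℝ) ^ (-c) * B := by
    have h1 : (B : ℝ) ^ (1 - c) = B * (B : ℝ) ^ (-c) := by
      rw [show (1 - c) = 1 + (-c) by ring, Real.rpow_add hBpos, Real.rpow_one]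
    have h2 : (B : ℝ) ^ (-c) ≤ 8 * (n : ℝ) ^ (-c) := by
      have h3 : ((n : ℝ) / 8) ^ c ≤ (B : ℝ) ^ c :=
        Real.rpow_le_rpow (by positivity) (by linarith) hc.le
      have h4 : ((n : ℝ) / 8) ^ c = (n : ℝ) ^ c / 8 ^ c := Real.div_rpow hnpos.le (by norm_num) c
      have h5 : (8 : ℝ) ^ c ≤ 8 := by
        calc (8 : ℝ) ^ c ≤ 8 ^ (1 : ℝ) := Real.rpow_le_rpow_of_exponent_le (by norm_num) hc1.le
          _ = 8 := Real.rpow_one 8
      rw [Real.rpow_neg hBpos.le, Real.rpow_neg hnpos.le]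
      have h6 : 0 < (n : ℝ) ^ c := by positivity
      have h7 : 0 < (8 : ℝ) ^ c := by positivity
      have h8 : (n : ℝ) ^ c / 8 ≤ (B : ℝ) ^ c := by
        rw [h4] at h3
        exact (div_le_div_of_nonneg_left h6.le h7 h5).trans h3
      rw [← div_eq_mul_inv, inv_eq_one_div, div_le_div_iff₀ (by positivity) h6]
      linarith
    rw [h1]
    calc (B : ℝ) * (B : ℝ) ^ (-c) ≤ B * (8 * (n : ℝ) ^ (-c)) := mul_le_mul_of_nonneg_left h2 hBpos.le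
      _ = 8 * (n : ℝ) ^ (-c) * B := by ring
  have hfinal : (Z.card : ℝ) * Z'.card * (C * (ρ * B + (B : ℝ) ^ (1 - c))) ≤
      10 * C * (n : ℝ) ^ (-(c * (1 - 2 * β))) * B := by
    calc (Z.card : ℝ) * Z'.card * (C * (ρ * B + (B : ℝ) ^ (1 - c)))
        ≤ (n : ℝ) ^ (2 * c * β) * (C * (ρ * B + 8 * (n : ℝ) ^ (-c) * B)) := by
          refine mul_le_mul hZZ ?_ (by positivity) (by positivity)
          exact mul_le_mul_of_nonneg_left (by linarith) hC.le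
      _ = 10 * C * ((n : ℝ) ^ (2 * c * β) * (n : ℝ) ^ (-c)) * B := by rw [hρ]; ring
      _ = 10 * C * (n : ℝ) ^ (-(c * (1 - 2 * β))) * B := by
          rw [← Real.rpow_add hnpos]
          congr 3
          ring
  have h3 : 10 * C * (n : ℝ) ^ (-(c * (1 - 2 * β))) * B < 3 / 4 * B :=
    mul_lt_mul_of_pos_right hsmall hBpos
  -- conclusion
  have e1 : (8 : ℝ) * (((Finset.range B).filter (fun b => ∀ z ∈ Z,
      (n : ℝ) ^ (-c) < ‖(2 ^ (n - Ord2.fl b) * 3 ^ b) • x - z‖)).card : ℝ) ≤ B := by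
    exact_mod_cast hZ2
  have e2 : (8 : ℝ) * (((Finset.range B).filter (fun b => ∀ z ∈ Z',
      (n : ℝ) ^ (-c) < ‖(2 ^ (n - Ord2.fl b) * 3 ^ b) • y - z‖)).card : ℝ) ≤ B := by
    exact_mod_cast hZ2'
  have e3 : (B : ℝ) ≤ (((Finset.range B).filter (fun b => ∀ z ∈ Z,
      (n : ℝ) ^ (-c) < ‖(2 ^ (n - Ord2.fl b) * 3 ^ b) • x - z‖)).card : ℝ) +
      (((Finset.range B).filter (fun b => ∀ z ∈ Z',
      (n : ℝ) ^ (-c) < ‖(2 ^ (n - Ord2.fl b) * 3 ^ b) • y - z‖)).card : ℝ) +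
      ((((Z ×ˢ Z').biUnion fun p => (Finset.range B).filter fun b : ℕ =>
        ‖((s * Ord2.th b : ℝ) : T) - (p.1 - p.2)‖ ≤ ρ).card : ℕ) : ℝ) := by
    exact_mod_cast hcard1
  linarith

end Pool.Agent.PE
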